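import Pool.Agent.Run7.h41.QM

/-!
# Extensions of Farrell-Jones groups by poly-free and poly-surface groups

`C` is a class of groups with the published closure properties of the class of the groups which
satisfy the Farrell-Jones conjecture (`ClosedE C`). A group `N` is a `C`-kernel (`KerC C N`) if every
extension of a group in `C` with kernel isomorphic to `N` is in `C`.

`IsQ L`: the abelianization `A` of `L` is torsion-free and not trivial, some crossed homomorphism
`L → ℤ[A]` does not vanish on `[L, L]`, and `[L, L]` contains no finitely generated normal subgroup
of `L` except the trivial one. Free groups of rank at least two and surface groups of genus at least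
two have this property.

(1) Let `M` be a finitely generated normal subgroup of `N` such that `N / M` is finitely generated
with `IsQ (N / M)`. If `M` and `N / M` are `C`-kernels then `N` is a `C`-kernel. The extension need not
preserve `M`.

(2) So, if `C` contains the mapping tori of the automorphisms of `ℤⁿ`, of the free groups of finite
rank and of the surface groups, then all groups `N` with a subnormal chain, whose lowest term is
`ℤⁿ` (for instance trivial) and whose quotients are free groups of finite rank at least two or
surface groups of genus at least two, are `C`-kernels, and they and all their mapping tori are in `C`.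

(3) If in such a chain the lowest term has trivial center and the automorphism groups of the lowest
term and of the quotients are in `C`, then the automorphism group of `N` is in `C`.
-/

namespace Pool.Agent.Results.MP_e40716_gt.TowerKernels

open Pool.Agent.Y110.FJ Run7.h41.PF

theorem result (C : ∀ (G : Type) [Group G], Prop) (hC : ClosedE C) :
    -- (1) extensions of kernels
    (∀ (N : Type) [Group N] (M : Subgroup N) [M.Normal], M.FG → Group.FG (N ⧸ M) →
      IsQ (N ⧸ M) → KerC C M → KerC C (N ⧸ M) → KerC C N) ∧
    -- (2) towers of free groups and surface groups
    (Tori C → ∀ (N : Type) [Group N], Tow IsZn IsFS N →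
      KerC C N ∧ C N ∧ ∀ α : MulAut N, C (MT N α)) ∧
    -- (3) automorphism groups
    (∀ (B F : ∀ (G : Type) [Group G], Prop),
      (∀ (G : Type) [Group G], B G → Group.FG G ∧ Cless G ∧ C (MulAut G)) →
      (∀ (G : Type) [Group G], F G → IsQ G ∧ Group.FG G ∧ C (MulAut G)) →
      ∀ (N : Type) [Group N], Tow B F N → C (MulAut N) ∧ KerC C N) := by
  refine ⟨fun N _ M _ h1 h2 h3 h4 h5 => kerC_ext hC.base M h1 h2 h3 h4 h5, ?_, ?_⟩
  · intro hT N _ hN
    have h := tow_fs hC hT N hN
    exact ⟨h, h.mem hC.base, h.mt hC.base⟩
  · intro B F hB hF N _ hN
    obtain ⟨_, h1, h2⟩ := tow_aut hC.base hB hF N hN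
    exact ⟨h2, kerC_of_aut hC.base h1 h2⟩

end Pool.Agent.Results.MP_e40716_gt.TowerKernels
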